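import Pool.Agent.W753.CZ.Crouzeix

/-!
# Scaled `q`-numerical ranges: reduction to Crouzeix's inequality

For an operator `A` on a finite dimensional complex inner product space and `0 < q ≤ 1` put
`k = (1 + √(1 - q²)) / q`. If `p` is a polynomial with `|p| ≤ M` on the scaled `q`-numerical range, then `|p| ≤ M` on
the numerical range of all operators `S⁻¹ A S`, where `S = 1 + (k - 1) P` with a projection `P` of rank one. Crouzeix's
inequality for these operators and a variational argument give `‖p(A)‖ ≤ max(1, 2 / k) M`.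
-/

set_option autoImplicit false

open Polynomial ComplexConjugate

namespace Pool.Agent.R947.QNum

variable {H : Type*} [NormedAddCommGroup H] [InnerProductSpace ℂ H]

/-- the scaled `q`-numerical range (with `⟨x, y⟩ = inner ℂ y x`, which is linear in `x`) -/
def Om (A : H →L[ℂ] H) (q : ℂ) : Set ℂ :=
  {w | ∃ x y : H, ‖x‖ = 1 ∧ ‖y‖ = 1 ∧ inner ℂ y x = q ∧ w = inner ℂ y (A x) / q}

/-- the component of `A x` orthogonal to `x` -/
noncomputable def dev (A : H →L[ℂ] H) (x : H) : H := A x - (inner ℂ x (A x) : ℂ) • x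

theorem inner_dev (A : H →L[ℂ] H) (x : H) (hx : ‖x‖ = 1) : inner ℂ x (dev A x) = 0 := by
  unfold dev
  rw [inner_sub_right, inner_smul_right, inner_self_eq_norm_sq_to_K, hx]
  simp

theorem inner_dev' (A : H →L[ℂ] H) (x : H) (hx : ‖x‖ = 1) : inner ℂ (dev A x) x = 0 := by
  rw [← inner_conj_symm, inner_dev A x hx, map_zero]

theorem inner_dev_self (A : H →L[ℂ] H) (x : H) (hx : ‖x‖ = 1) :
    inner ℂ (dev A x) (A x) = ((‖dev A x‖ ^ 2 : ℝ) : ℂ) := by
  have h : A x = dev A x + (inner ℂ x (A x) : ℂ) • x := by unfold dev; abel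
  conv_lhs => rw [h]
  rw [inner_add_right, inner_smul_right, inner_dev' A x hx, mul_zero, add_zero,
    inner_self_eq_norm_sq_to_K]
  push_cast
  rfl

/-- the point of the circle with parameter `c` -/
theorem circle_mem (A : H →L[ℂ] H) (q : ℝ) (hq0 : 0 < q) (hq1 : q ≤ 1) (x : H) (hx : ‖x‖ = 1)
    (hz : q = 1 ∨ ∃ z : H, ‖z‖ = 1 ∧ inner ℂ z x = (0 : ℂ)) (c : ℂ) (hc : ‖c‖ = 1) :
    inner ℂ x (A x) + ((Real.sqrt (1 - q ^ 2) / q * ‖dev A x‖ : ℝ) : ℂ) * c ∈ Om A (q : ℂ) := by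
  have hqC : (q : ℂ) ≠ 0 := by exact_mod_cast hq0.ne'
  set s := Real.sqrt (1 - q ^ 2) with hs
  have hs2 : s ^ 2 = 1 - q ^ 2 := Real.sq_sqrt (by nlinarith)
  have key : q = 1 ∨ ∃ z : H, ‖z‖ = 1 ∧ inner ℂ z x = (0 : ℂ) ∧
      inner ℂ z (A x) = ((‖dev A x‖ : ℝ) : ℂ) * c := by
    rcases hz with h | ⟨z, hz1, hz2⟩
    · exact Or.inl h
    · right
      by_cases hv : dev A x = 0
      · refine ⟨z, hz1, hz2, ?_⟩
        have h : A x = dev A x + (inner ℂ x (A x) : ℂ) • x := by unfold dev; abel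
        rw [h, hv, zero_add, inner_smul_right, hz2]
        simp
      · have hn : ‖dev A x‖ ≠ 0 := norm_ne_zero_iff.mpr hv
        refine ⟨(conj c * ((‖dev A x‖⁻¹ : ℝ) : ℂ)) • dev A x, ?_, ?_, ?_⟩
        · rw [norm_smul, norm_mul, RCLike.norm_conj, hc, Complex.norm_real, norm_inv, norm_norm,
            one_mul, inv_mul_cancel₀ hn]
        · rw [inner_smul_left, inner_dev' A x hx, mul_zero]
        · rw [inner_smul_left, inner_dev_self A x hx, map_mul, Complex.conj_conj,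
            Complex.conj_ofReal]
          have : ((‖dev A x‖ : ℝ) : ℂ) ≠ 0 := by exact_mod_cast hn
          push_cast
          field_simp
  rcases key with h | ⟨z, hz1, hz2, hz3⟩
  · refine ⟨x, x, hx, hx, ?_, ?_⟩
    · rw [inner_self_eq_norm_sq_to_K, hx, h]; simp
    · have : s = 0 := by
        have : s ^ 2 = 0 := by rw [hs2, h]; ring
        exact pow_eq_zero_iff (two_ne_zero) |>.mp this
      rw [this, h]; simp
  · refine ⟨x, (q : ℂ) • x + (s : ℂ) • z, hx, ?_, ?_, ?_⟩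
    · have h1 : ‖(q : ℂ) • x + (s : ℂ) • z‖ ^ 2 = 1 := by
        have h2 : inner ℂ ((q : ℂ) • x) ((s : ℂ) • z) = 0 := by
          rw [inner_smul_left, inner_smul_right]
          have : inner ℂ x z = (0 : ℂ) := by rw [← inner_conj_symm, hz2, map_zero]
          rw [this]; ring
        have h3 := norm_add_sq_eq_norm_sq_add_norm_sq_of_inner_eq_zero _ _ h2
        rw [← sq, ← sq, ← sq] at h3
        rw [h3, norm_smul, norm_smul, hx, hz1, mul_one, mul_one, Complex.norm_real,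
          Complex.norm_real, Real.norm_eq_abs, Real.norm_eq_abs, sq_abs, sq_abs, hs2]
        ring
      exact (pow_eq_one_iff_of_nonneg (norm_nonneg _) two_ne_zero).mp h1
    · rw [inner_add_left, inner_smul_left, inner_smul_left, hz2, inner_self_eq_norm_sq_to_K, hx]
      simp
    · rw [inner_add_left, inner_smul_left, inner_smul_left, hz3, Complex.conj_ofReal,
        Complex.conj_ofReal]
      push_cast
      field_simp

/-- a polynomial bounded by `M` on `Om A q` is bounded by `M` on the discs filling the circles -/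
theorem disc_bound (A : H →L[ℂ] H) (q : ℝ) (hq0 : 0 < q) (hq1 : q ≤ 1) (x : H) (hx : ‖x‖ = 1)
    (hz : q = 1 ∨ ∃ z : H, ‖z‖ = 1 ∧ inner ℂ z x = (0 : ℂ)) (p : ℂ[X]) (M : ℝ)
    (hM : ∀ w ∈ Om A (q : ℂ), ‖p.eval w‖ ≤ M) (w : ℂ)
    (hw : ‖w - inner ℂ x (A x)‖ ≤ Real.sqrt (1 - q ^ 2) / q * ‖dev A x‖) : ‖p.eval w‖ ≤ M := by
  set R := Real.sqrt (1 - q ^ 2) / q * ‖dev A x‖ with hR
  set c0 : ℂ := inner ℂ x (A x) with hc0
  have hR0 : 0 ≤ R := by positivity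
  rcases hR0.eq_or_lt with h0 | hpos
  · have h1 := circle_mem A q hq0 hq1 x hx hz 1 (by simp)
    rw [← hR, ← h0] at h1
    rw [← h0] at hw
    have h2 : w = c0 := by
      have := le_antisymm hw (norm_nonneg _)
      exact sub_eq_zero.mp (norm_eq_zero.mp this)
    rw [h2]
    apply hM
    simpa using h1
  · have hb : Bornology.IsBounded (Metric.ball c0 R) := Metric.isBounded_ball
    apply Complex.norm_le_of_forall_mem_frontier_norm_le (f := fun z => p.eval z) hb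
      (p.differentiable.diffContOnCl) (C := M) (z := w)
    · intro z hz'
      rw [frontier_ball c0 hpos.ne', mem_sphere_iff_norm] at hz'
      have h1 := circle_mem A q hq0 hq1 x hx hz ((z - c0) / (R : ℂ)) (by
        rw [norm_div, hz', Complex.norm_real, Real.norm_eq_abs, abs_of_pos hpos, div_self hpos.ne'])
      rw [← hR] at h1
      have h2 : c0 + (R : ℂ) * ((z - c0) / (R : ℂ)) = z := by
        have : (R : ℂ) ≠ 0 := by exact_mod_cast hpos.ne'
        field_simp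
        ring
      rw [← hc0, h2] at h1
      exact hM z h1
    · rw [closure_ball c0 hpos.ne']
      simpa [dist_eq_norm] using hw


/-- the operator `z ↦ z + t ⟨z, x₀⟩ x₀` -/
noncomputable def Sop (x₀ : H) (t : ℝ) : H →L[ℂ] H :=
  ContinuousLinearMap.id ℂ H + ((t : ℂ)) • ((innerSL ℂ x₀).smulRight x₀)

theorem Sop_apply (x₀ : H) (t : ℝ) (z : H) :
    Sop x₀ t z = z + ((t : ℂ) * inner ℂ x₀ z) • x₀ := by
  simp only [Sop, add_apply, ContinuousLinearMap.coe_id', id_eq, smul_apply,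
    ContinuousLinearMap.smulRight_apply, innerSL_apply_apply, smul_smul]

theorem Sop_inner (x₀ : H) (t : ℝ) (u z : H) : inner ℂ (Sop x₀ t u) z = inner ℂ u (Sop x₀ t z) := by
  rw [Sop_apply, Sop_apply, inner_add_left, inner_add_right, inner_smul_left, inner_smul_right,
    map_mul, Complex.conj_ofReal, inner_conj_symm]
  ring

theorem Sop_mul (x₀ : H) (hx : ‖x₀‖ = 1) (s t : ℝ) (h : s + t + s * t = 0) (z : H) :
    Sop x₀ s (Sop x₀ t z) = z := by
  have hself : inner ℂ x₀ x₀ = (1 : ℂ) := by rw [inner_self_eq_norm_sq_to_K, hx]; simp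
  rw [Sop_apply, Sop_apply, inner_add_right, inner_smul_right, hself]
  have h' : (s : ℂ) + t + s * t = 0 := by exact_mod_cast h
  have : (z + ((t : ℂ) * inner ℂ x₀ z) • x₀) +
      ((s : ℂ) * (inner ℂ x₀ z + (t : ℂ) * inner ℂ x₀ z * 1)) • x₀ =
      z + (((s : ℂ) + t + s * t) * inner ℂ x₀ z) • x₀ := by
    rw [add_assoc, ← add_smul]
    congr 2
    ring
  rw [this, h', zero_mul, zero_smul, add_zero]

theorem Sop_normsq (x₀ : H) (hx : ‖x₀‖ = 1) (t : ℝ) (z : H) :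
    ‖Sop x₀ t z‖ ^ 2 = ‖z‖ ^ 2 + (2 * t + t ^ 2) * ‖(inner ℂ x₀ z : ℂ)‖ ^ 2 := by
  have h1 : ((‖Sop x₀ t z‖ ^ 2 : ℝ) : ℂ) = inner ℂ (Sop x₀ t z) (Sop x₀ t z) := by
    rw [inner_self_eq_norm_sq_to_K]; push_cast; rfl
  have h2 : (inner ℂ (Sop x₀ t z) (Sop x₀ t z) : ℂ) =
      ((‖z‖ ^ 2 + (2 * t + t ^ 2) * ‖(inner ℂ x₀ z : ℂ)‖ ^ 2 : ℝ) : ℂ) := by
    rw [Sop_apply, inner_add_left, inner_add_right, inner_add_right, inner_smul_left,
      inner_smul_right, inner_smul_left, inner_smul_right, inner_self_eq_norm_sq_to_K,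
      inner_self_eq_norm_sq_to_K, hx, map_mul, Complex.conj_ofReal]
    have h3 : inner ℂ z x₀ = conj (inner ℂ x₀ z : ℂ) := (inner_conj_symm _ _).symm
    have h4 : (inner ℂ x₀ z : ℂ) * conj (inner ℂ x₀ z : ℂ) = ((‖(inner ℂ x₀ z : ℂ)‖ ^ 2 : ℝ) : ℂ) := by
      rw [Complex.mul_conj, Complex.normSq_eq_norm_sq]
    rw [h3]
    push_cast
    push_cast at h4
    linear_combination (2 * (t : ℂ) + t ^ 2) * h4
  have := h1.trans h2
  exact_mod_cast this

/-- the numerical range of `S⁻¹ A S` lies in the union of the discs -/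
theorem num_disc (A : H →L[ℂ] H) (k : ℝ) (hk : 1 ≤ k) (x₀ : H) (hx : ‖x₀‖ = 1) (z : H) (hz : ‖z‖ = 1) :
    ∃ x : H, ‖x‖ = 1 ∧ ‖inner ℂ z (Sop x₀ (1 / k - 1) (A (Sop x₀ (k - 1) z))) - inner ℂ x (A x)‖ ≤
      (k - 1 / k) / 2 * ‖dev A x‖ := by
  have hk0 : 0 < k := by linarith
  have hrel : (1 / k - 1) + (k - 1) + (1 / k - 1) * (k - 1) = 0 := by field_simp; ring
  set u := Sop x₀ (k - 1) z with hu
  set v := Sop x₀ (1 / k - 1) z with hv
  rw [← Sop_inner, ← hv]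
  have huv : inner ℂ v u = (1 : ℂ) := by
    rw [hv, hu, Sop_inner, Sop_mul x₀ hx _ _ hrel, inner_self_eq_norm_sq_to_K, hz]; simp
  have hu0 : u ≠ 0 := by
    intro h; rw [h, inner_zero_right] at huv; exact zero_ne_one huv
  have hn : 0 < ‖u‖ := norm_pos_iff.mpr hu0
  -- norms
  set C := ‖(inner ℂ x₀ z : ℂ)‖ ^ 2 with hC
  have hC0 : 0 ≤ C := by positivity
  have hC1 : C ≤ 1 := by
    have : ‖(inner ℂ x₀ z : ℂ)‖ ≤ 1 := by
      have := norm_inner_le_norm (𝕜 := ℂ) x₀ z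
      rwa [hx, hz, mul_one] at this
    rw [hC]; exact pow_le_one₀ (norm_nonneg _) this
  have hun : ‖u‖ ^ 2 = 1 + (k ^ 2 - 1) * C := by
    rw [hu, Sop_normsq x₀ hx, hz]; ring
  have hvn : ‖v‖ ^ 2 = 1 + (1 / k ^ 2 - 1) * C := by
    rw [hv, Sop_normsq x₀ hx, hz]; field_simp; ring
  have hprod : ‖u‖ ^ 2 * ‖v‖ ^ 2 - 1 ≤ ((k - 1 / k) / 2) ^ 2 := by
    rw [hun, hvn]
    have h1 : (1 + (k ^ 2 - 1) * C) * (1 + (1 / k ^ 2 - 1) * C) - 1 = (k - 1 / k) ^ 2 * (C * (1 - C)) := by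
      field_simp; ring
    rw [h1]
    have h2 : C * (1 - C) ≤ 1 / 4 := by nlinarith [sq_nonneg (C - 1 / 2)]
    have h3 : 0 ≤ (k - 1 / k) ^ 2 := sq_nonneg _
    nlinarith
  set x : H := ((‖u‖⁻¹ : ℝ) : ℂ) • u with hxd
  have hx1 : ‖x‖ = 1 := by
    rw [hxd, norm_smul, Complex.norm_real, norm_inv, norm_norm, inv_mul_cancel₀ hn.ne']
  have hux : u = ((‖u‖ : ℝ) : ℂ) • x := by
    rw [hxd, smul_smul, ← Complex.ofReal_mul, mul_inv_cancel₀ hn.ne', Complex.ofReal_one, one_smul]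
  refine ⟨x, hx1, ?_⟩
  -- `v = x / ‖u‖ + t`
  set t : H := v - ((‖u‖⁻¹ : ℝ) : ℂ) • x with ht
  have hvx : inner ℂ v x = ((‖u‖⁻¹ : ℝ) : ℂ) := by
    rw [hxd, inner_smul_right, huv, mul_one]
  have htx : inner ℂ t x = (0 : ℂ) := by
    rw [ht, inner_sub_left, inner_smul_left, hvx, inner_self_eq_norm_sq_to_K, hx1,
      Complex.conj_ofReal]
    simp
  have htn : ‖t‖ ^ 2 = ‖v‖ ^ 2 - (‖u‖⁻¹) ^ 2 := by
    have h1 : v = t + ((‖u‖⁻¹ : ℝ) : ℂ) • x := by rw [ht]; abel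
    have h2 : inner ℂ t (((‖u‖⁻¹ : ℝ) : ℂ) • x) = (0 : ℂ) := by
      rw [inner_smul_right, htx, mul_zero]
    have h3 := norm_add_sq_eq_norm_sq_add_norm_sq_of_inner_eq_zero _ _ h2
    rw [← h1, ← sq, ← sq, ← sq, norm_smul, hx1, mul_one, Complex.norm_real, Real.norm_eq_abs,
      sq_abs] at h3
    linarith
  have hA : A u = ((‖u‖ : ℝ) : ℂ) • (dev A x + (inner ℂ x (A x) : ℂ) • x) := by
    have : A x = dev A x + (inner ℂ x (A x) : ℂ) • x := by unfold dev; abel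
    conv_lhs => rw [hux]
    rw [map_smul, ← this]
  have hval : inner ℂ v (A u) - inner ℂ x (A x) = ((‖u‖ : ℝ) : ℂ) * inner ℂ t (dev A x) := by
    have h1 : inner ℂ v (dev A x) = (inner ℂ t (dev A x) : ℂ) := by
      have : v = t + ((‖u‖⁻¹ : ℝ) : ℂ) • x := by rw [ht]; abel
      rw [this, inner_add_left, inner_smul_left, inner_dev A x hx1, mul_zero, add_zero]
    rw [hA, inner_smul_right, inner_add_right, inner_smul_right, hvx, h1]
    have : ((‖u‖ : ℝ) : ℂ) ≠ 0 := by exact_mod_cast hn.ne'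
    push_cast
    field_simp
    ring
  rw [hval, norm_mul, Complex.norm_real, norm_norm]
  have h4 : ‖u‖ * ‖t‖ ≤ (k - 1 / k) / 2 := by
    have hk1 : 0 ≤ (k - 1 / k) / 2 := by
      have : 1 / k ≤ 1 := by rw [div_le_one hk0]; exact hk
      linarith
    apply le_of_sq_le_sq _ hk1
    rw [mul_pow, htn]
    have : ‖u‖ ^ 2 * (‖v‖ ^ 2 - ‖u‖⁻¹ ^ 2) = ‖u‖ ^ 2 * ‖v‖ ^ 2 - 1 := by
      field_simp
    rw [this]; exact hprod
  calc ‖u‖ * ‖(inner ℂ t (dev A x) : ℂ)‖ ≤ ‖u‖ * (‖t‖ * ‖dev A x‖) := by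
        gcongr; exact norm_inner_le_norm _ _
    _ = (‖u‖ * ‖t‖) * ‖dev A x‖ := by ring
    _ ≤ (k - 1 / k) / 2 * ‖dev A x‖ := by gcongr

theorem aeval_conj (A S S' : H →L[ℂ] H) (h : S ∘L S' = ContinuousLinearMap.id ℂ H)
    (h' : S' ∘L S = ContinuousLinearMap.id ℂ H) (p : ℂ[X]) :
    aeval (S' ∘L A ∘L S) p = S' ∘L (aeval A p) ∘L S := by
  have hmul : ∀ B C : H →L[ℂ] H, (S' ∘L B ∘L S) * (S' ∘L C ∘L S) = S' ∘L (B * C) ∘L S := by
    intro B C
    ext z
    have : S (S' (C (S z))) = C (S z) := by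
      have := congrArg (fun T : H →L[ℂ] H => T (C (S z))) h
      simpa using this
    simp [this]
  induction p using Polynomial.induction_on' with
  | add p q hp hq => rw [map_add, map_add, hp, hq]; ext z; simp
  | monomial n a =>
    have hpow : ∀ n : ℕ, (S' ∘L A ∘L S) ^ n = S' ∘L (A ^ n) ∘L S := by
      intro n
      induction n with
      | zero =>
        rw [pow_zero, pow_zero]
        have : S' ∘L (1 : H →L[ℂ] H) ∘L S = S' ∘L S := by ext z; simp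
        rw [this, h']; rfl
      | succ n ih => rw [pow_succ, ih, hmul, ← pow_succ]
    rw [aeval_monomial, aeval_monomial, hpow]
    ext z
    simp [Algebra.algebraMap_eq_smul_one]

variable [CompleteSpace H]

/-- the key inequality: if `|p| ≤ M` on `Om A q` then the components orthogonal to `x` of `p(A) x` are bounded by
`2 M / k` -/
theorem dev_bound (A : H →L[ℂ] H) (q : ℝ) (hq0 : 0 < q) (hq1 : q ≤ 1)
    (hz : ∀ x : H, ‖x‖ = 1 → q = 1 ∨ ∃ z : H, ‖z‖ = 1 ∧ inner ℂ z x = (0 : ℂ)) (p : ℂ[X]) (M : ℝ)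
    (hM : ∀ w ∈ Om A (q : ℂ), ‖p.eval w‖ ≤ M) (k : ℝ) (hk : k = (1 + Real.sqrt (1 - q ^ 2)) / q)
    (x₀ : H) (hx : ‖x₀‖ = 1) : k * ‖dev (aeval A p) x₀‖ ≤ 2 * M ∧ ‖aeval A p‖ ≤ 2 * M := by
  have : Nontrivial H := ⟨⟨x₀, 0, fun h => by rw [h, norm_zero] at hx; exact zero_ne_one hx⟩⟩
  set s := Real.sqrt (1 - q ^ 2) with hs
  have hs0 : 0 ≤ s := Real.sqrt_nonneg _
  have hs2 : s ^ 2 = 1 - q ^ 2 := Real.sq_sqrt (by nlinarith)
  have hk1 : 1 ≤ k := by rw [hk, le_div_iff₀ hq0]; linarith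
  have hk0 : 0 < k := by linarith
  have hkinv : 1 / k = (1 - s) / q := by
    rw [hk, div_eq_div_iff (by positivity) hq0.ne']
    field_simp
    nlinarith
  have hr : (k - 1 / k) / 2 = s / q := by
    rw [hkinv, hk]; field_simp; ring
  have hrel : (1 / k - 1) + (k - 1) + (1 / k - 1) * (k - 1) = 0 := by field_simp; ring
  have hrel' : (k - 1) + (1 / k - 1) + (k - 1) * (1 / k - 1) = 0 := by field_simp; ring
  constructor
  · set S := Sop x₀ (k - 1) with hS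
    set S' := Sop x₀ (1 / k - 1) with hS'
    have hSS' : S ∘L S' = ContinuousLinearMap.id ℂ H := by
      ext z; simp only [ContinuousLinearMap.comp_apply, hS, hS', Sop_mul x₀ hx _ _ hrel']; rfl
    have hS'S : S' ∘L S = ContinuousLinearMap.id ℂ H := by
      ext z; simp only [ContinuousLinearMap.comp_apply, hS, hS', Sop_mul x₀ hx _ _ hrel]; rfl
    have hnum : ∀ w ∈ W753.CZ.numRange (S' ∘L A ∘L S), ‖p.eval w‖ ≤ M := by
      rintro w ⟨z, hz1, rfl⟩
      obtain ⟨x, hx1, hxz⟩ := num_disc A k hk1 x₀ hx z hz1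
      rw [hr] at hxz
      exact disc_bound A q hq0 hq1 x hx1 (hz x hx1) p M hM _ hxz
    have h1 := W753.CZ.crouzeix_bound (S' ∘L A ∘L S) p M hnum
    rw [aeval_conj A S S' hSS' hS'S] at h1
    set T := aeval A p with hT
    have h2 : ‖(S' ∘L T ∘L S) x₀‖ ≤ 2 * M := by
      have := (S' ∘L T ∘L S).le_opNorm x₀
      rw [hx, mul_one] at this
      exact this.trans h1
    have h3 : (S' ∘L T ∘L S) x₀ = (k : ℂ) • dev T x₀ + ((inner ℂ x₀ (T x₀) : ℂ)) • x₀ := by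
      have e1 : S x₀ = (k : ℂ) • x₀ := by
        rw [hS, Sop_apply, inner_self_eq_norm_sq_to_K, hx]
        have : (k : ℂ) • x₀ = x₀ + ((k : ℂ) - 1) • x₀ := by rw [sub_smul, one_smul]; abel
        rw [this]; congr 2; push_cast; ring
      have e2 : T x₀ = dev T x₀ + (inner ℂ x₀ (T x₀) : ℂ) • x₀ := by unfold dev; abel
      have e3 : S' (dev T x₀) = dev T x₀ := by
        rw [hS', Sop_apply, inner_dev T x₀ hx, mul_zero, zero_smul, add_zero]
      have e4 : S' x₀ = ((1 / k : ℝ) : ℂ) • x₀ := by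
        rw [hS', Sop_apply, inner_self_eq_norm_sq_to_K, hx]
        have : ((1 / k : ℝ) : ℂ) • x₀ = x₀ + (((1 / k : ℝ) : ℂ) - 1) • x₀ := by
          rw [sub_smul, one_smul]; abel
        rw [this]; congr 2; push_cast; ring
      have hkC : (k : ℂ) ≠ 0 := by exact_mod_cast hk0.ne'
      calc (S' ∘L T ∘L S) x₀ = S' (T (S x₀)) := rfl
        _ = (k : ℂ) • S' (T x₀) := by rw [e1, map_smul, map_smul]
        _ = (k : ℂ) • (dev T x₀ + (inner ℂ x₀ (T x₀) : ℂ) • (((1 / k : ℝ) : ℂ) • x₀)) := by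
            conv_lhs => rw [e2, map_add, map_smul, e3, e4]
        _ = _ := by
            rw [smul_add, smul_smul, smul_smul]
            congr 2
            push_cast
            field_simp
    have h4 : (k * ‖dev T x₀‖) ^ 2 ≤ ‖(S' ∘L T ∘L S) x₀‖ ^ 2 := by
      have e5 : inner ℂ ((k : ℂ) • dev T x₀) (((inner ℂ x₀ (T x₀) : ℂ)) • x₀) = (0 : ℂ) := by
        rw [inner_smul_left, inner_smul_right, inner_dev' T x₀ hx]; ring
      have h5 := norm_add_sq_eq_norm_sq_add_norm_sq_of_inner_eq_zero _ _ e5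
      rw [← sq, ← sq, ← sq, ← h3] at h5
      rw [h5, norm_smul, Complex.norm_real, Real.norm_eq_abs, abs_of_pos hk0]
      nlinarith [sq_nonneg ‖((inner ℂ x₀ (T x₀) : ℂ)) • x₀‖]
    exact (le_of_sq_le_sq h4 (norm_nonneg _)).trans h2
  · apply W753.CZ.crouzeix_bound
    rintro w ⟨x, hx1, rfl⟩
    apply disc_bound A q hq0 hq1 x hx1 (hz x hx1) p M hM
    rw [sub_self, norm_zero]
    positivity


/-! ### The variational argument -/

theorem moebius_poly (z a : ℂ) (hz : ‖z‖ ≤ 1) (ha : ‖a‖ ≤ 1) :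
    ‖(z - a) * (1 + conj a * z)‖ ≤ 1 + ‖a‖ ^ 2 := by
  have h1 : ‖z - a‖ ≤ ‖1 - conj a * z‖ := by
    have h2 : ‖z - a‖ ^ 2 ≤ ‖1 - conj a * z‖ ^ 2 := by
      rw [← Complex.normSq_eq_norm_sq, ← Complex.normSq_eq_norm_sq]
      have hz' : Complex.normSq z ≤ 1 := by
        rw [Complex.normSq_eq_norm_sq]; exact pow_le_one₀ (norm_nonneg _) hz
      have ha' : Complex.normSq a ≤ 1 := by
        rw [Complex.normSq_eq_norm_sq]; exact pow_le_one₀ (norm_nonneg _) ha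
      have h3 : Complex.normSq (1 - conj a * z) - Complex.normSq (z - a) =
          (1 - Complex.normSq z) * (1 - Complex.normSq a) := by
        simp only [Complex.normSq_apply, Complex.sub_re, Complex.sub_im, Complex.one_re,
          Complex.one_im, Complex.mul_re, Complex.mul_im, Complex.conj_re, Complex.conj_im]
        ring
      have h4 : 0 ≤ (1 - Complex.normSq z) * (1 - Complex.normSq a) :=
        mul_nonneg (by linarith) (by linarith)
      linarith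
    exact le_of_sq_le_sq h2 (norm_nonneg _)
  calc ‖(z - a) * (1 + conj a * z)‖ = ‖z - a‖ * ‖1 + conj a * z‖ := norm_mul _ _
    _ ≤ ‖1 - conj a * z‖ * ‖1 + conj a * z‖ := by gcongr
    _ = ‖1 - (conj a * z) ^ 2‖ := by rw [← norm_mul]; ring_nf
    _ ≤ ‖(1 : ℂ)‖ + ‖(conj a * z) ^ 2‖ := norm_sub_le _ _
    _ ≤ 1 + ‖a‖ ^ 2 := by
        rw [norm_one, norm_pow, norm_mul, RCLike.norm_conj]
        gcongr
        nlinarith [norm_nonneg a, norm_nonneg z]

omit [CompleteSpace H] in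
theorem exists_max [FiniteDimensional ℂ H] [Nontrivial H] (T : H →L[ℂ] H) :
    ∃ x : H, ‖x‖ = 1 ∧ ‖T x‖ = ‖T‖ := by
  have hc : IsCompact (Metric.sphere (0 : H) 1) := by
    have := FiniteDimensional.proper ℂ H
    exact isCompact_sphere 0 1
  have hne : (Metric.sphere (0 : H) 1).Nonempty := by
    obtain ⟨x, hx⟩ := exists_norm_eq H zero_le_one
    exact ⟨x, by simpa using hx⟩
  obtain ⟨x, hx, hmax⟩ := hc.exists_isMaxOn hne (f := fun x => ‖T x‖) (by fun_prop)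
  have hx1 : ‖x‖ = 1 := by simpa using hx
  refine ⟨x, hx1, le_antisymm ?_ ?_⟩
  · have := T.le_opNorm x
    rwa [hx1, mul_one] at this
  · apply T.opNorm_le_bound (norm_nonneg _)
    intro z
    by_cases hz : z = 0
    · simp [hz]
    have hn : ‖z‖ ≠ 0 := norm_ne_zero_iff.mpr hz
    have h1 : ‖T (((‖z‖⁻¹ : ℝ) : ℂ) • z)‖ ≤ ‖T x‖ := by
      apply hmax
      rw [mem_sphere_zero_iff_norm, norm_smul, Complex.norm_real, norm_inv, norm_norm,
        inv_mul_cancel₀ hn]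
    rw [map_smul, norm_smul, Complex.norm_real, norm_inv, norm_norm] at h1
    calc ‖T z‖ = (‖z‖⁻¹ * ‖T z‖) * ‖z‖ := by field_simp
      _ ≤ ‖T x‖ * ‖z‖ := by gcongr

theorem adjoint_max (T : H →L[ℂ] H) (x : H) (hx : ‖x‖ = 1) (hT : ‖T x‖ = ‖T‖) (z : H) :
    inner ℂ (T x) (T z) = ((‖T‖ ^ 2 : ℝ) : ℂ) * inner ℂ x z := by
  set m := ‖T‖ with hm
  set w := ContinuousLinearMap.adjoint T (T x) with hw
  have h1 : ‖w‖ ≤ m * m := by
    calc ‖w‖ ≤ ‖ContinuousLinearMap.adjoint T‖ * ‖T x‖ := ContinuousLinearMap.le_opNorm _ _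
      _ = m * m := by rw [hT, ContinuousLinearMap.adjoint.norm_map]
  have h2 : inner ℂ w x = ((m ^ 2 : ℝ) : ℂ) := by
    rw [hw, ContinuousLinearMap.adjoint_inner_left, inner_self_eq_norm_sq_to_K, hT]
    push_cast; rfl
  have h3 : ‖w - ((m ^ 2 : ℝ) : ℂ) • x‖ ^ 2 ≤ 0 := by
    rw [norm_sub_sq (𝕜 := ℂ), inner_smul_right, h2, norm_smul, hx, Complex.norm_real]
    have h4 : RCLike.re (((m ^ 2 : ℝ) : ℂ) * ((m ^ 2 : ℝ) : ℂ)) = m ^ 2 * m ^ 2 := by
      rw [← Complex.ofReal_mul]; exact Complex.ofReal_re _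
    rw [h4, Real.norm_eq_abs, abs_of_nonneg (by positivity)]
    nlinarith [norm_nonneg w, norm_nonneg T]
  have h4 : w = ((m ^ 2 : ℝ) : ℂ) • x := by
    have : ‖w - ((m ^ 2 : ℝ) : ℂ) • x‖ = 0 := by
      have := le_antisymm h3 (sq_nonneg _)
      exact pow_eq_zero_iff two_ne_zero |>.mp this
    exact sub_eq_zero.mp (norm_eq_zero.mp this)
  rw [← ContinuousLinearMap.adjoint_inner_left, ← hw, h4, inner_smul_left, Complex.conj_ofReal]

/-- the estimate for nearly extremal polynomials -/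
theorem near_extremal (A : H →L[ℂ] H) (W : Set ℂ) (K κ : ℝ)
    (hK : ∀ p : ℂ[X], (∀ w ∈ W, ‖p.eval w‖ ≤ 1) → ‖aeval A p‖ ≤ K) (hK2 : K ≤ 2)
    (p : ℂ[X]) (hp : ∀ w ∈ W, ‖p.eval w‖ ≤ 1) (m : ℝ) (hm : ‖aeval A p‖ = m) (hm1 : 1 < m)
    (x : H) (hx : ‖x‖ = 1) (hTx : ‖(aeval A p) x‖ = m) (hdev : ‖dev (aeval A p) x‖ ≤ κ)
    (δ : ℝ) (hδ0 : 0 < δ) (hδ1 : δ ≤ 1) (hmK : K ≤ m + δ ^ 2) :
    m ^ 2 ≤ κ ^ 2 + (12 * δ / (m ^ 2 - 1)) ^ 2 := by
  set T := aeval A p with hT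
  have hm2 : m ≤ 2 := by rw [← hm]; exact (hK p hp).trans hK2
  set ip : ℂ := inner ℂ x (T x) with hip
  have hpos : 0 < m ^ 2 - 1 := by nlinarith
  have hmain : (m ^ 2 - 1) * (δ * ‖ip‖) ≤ 12 * δ ^ 2 := by
    by_cases h0 : ip = 0
    · rw [h0, norm_zero, mul_zero, mul_zero]; positivity
    have hn : ‖ip‖ ≠ 0 := norm_ne_zero_iff.mpr h0
    set a : ℂ := ((δ * ‖ip‖⁻¹ : ℝ) : ℂ) * ip with ha
    have han : ‖a‖ = δ := by
      rw [ha, norm_mul, Complex.norm_real, Real.norm_eq_abs, abs_of_pos (by positivity)]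
      field_simp
    have hai : conj a * ip = ((δ * ‖ip‖ : ℝ) : ℂ) := by
      have h1 : conj ip * ip = ((‖ip‖ ^ 2 : ℝ) : ℂ) := by
        rw [mul_comm, Complex.mul_conj, Complex.normSq_eq_norm_sq]
      rw [ha, map_mul, Complex.conj_ofReal, mul_assoc, h1, ← Complex.ofReal_mul]
      congr 1
      field_simp
    set f : ℂ[X] := C (((1 + δ ^ 2)⁻¹ : ℝ) : ℂ) * ((p - C a) * (1 + C (conj a) * p)) with hf
    have hδ2 : 0 < 1 + δ ^ 2 := by positivity
    have hfW : ∀ w ∈ W, ‖f.eval w‖ ≤ 1 := by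
      intro w hw
      rw [hf, eval_mul, eval_C, norm_mul, Complex.norm_real, Real.norm_eq_abs,
        abs_of_pos (by positivity)]
      have h1 := moebius_poly (p.eval w) a (hp w hw) (by rw [han]; exact hδ1)
      rw [han] at h1
      have h2 : ((p - C a) * (1 + C (conj a) * p)).eval w = (p.eval w - a) * (1 + conj a * p.eval w) := by
        simp
      rw [h2]
      calc (1 + δ ^ 2)⁻¹ * _ ≤ (1 + δ ^ 2)⁻¹ * (1 + δ ^ 2) := by gcongr
        _ = 1 := inv_mul_cancel₀ hδ2.ne'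
    have h1 := hK f hfW
    set G : H →L[ℂ] H := (T - algebraMap ℂ _ a) * (1 + algebraMap ℂ _ (conj a) * T) with hG
    have h2 : aeval A f = (((1 + δ ^ 2)⁻¹ : ℝ) : ℂ) • G := by
      have e : ∀ b c e : ℂ, aeval A (C b * ((p - C c) * (1 + C e * p))) =
          b • ((T - algebraMap ℂ _ c) * (1 + algebraMap ℂ _ e * T)) := by
        intro b c e
        simp only [map_mul, map_sub, map_add, map_one, aeval_C, ← hT, Algebra.smul_def]
      rw [hf, e, ← hG]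
    rw [h2, norm_smul, Complex.norm_real, Real.norm_eq_abs, abs_of_pos (by positivity)] at h1
    have h3 : ‖G‖ ≤ K * (1 + δ ^ 2) := by
      rw [inv_mul_le_iff₀ hδ2] at h1
      linarith
    have h4 : inner ℂ (T x) (G x) = ((m ^ 2 * (1 - δ ^ 2) : ℝ) : ℂ) - a * conj ip +
        conj a * ((m ^ 2 : ℝ) : ℂ) * ip := by
      have e1 : G x = T x + conj a • T (T x) - (a • x + (a * conj a) • T x) := by
        have : G x = T ((1 + algebraMap ℂ (H →L[ℂ] H) (conj a) * T) x) -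
            a • ((1 + algebraMap ℂ (H →L[ℂ] H) (conj a) * T) x) := by
          rw [hG, Algebra.algebraMap_eq_smul_one a]; rfl
        have e2 : (1 + algebraMap ℂ (H →L[ℂ] H) (conj a) * T) x = x + conj a • T x := by
          rw [Algebra.algebraMap_eq_smul_one]; rfl
        rw [this, e2, map_add, map_smul, smul_add, smul_smul]
      have e3 : inner ℂ (T x) (T (T x)) = ((m ^ 2 : ℝ) : ℂ) * ip := by
        rw [adjoint_max T x hx (by rw [hTx, hm]) (T x), hm]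
      have e4 : inner ℂ (T x) (T x) = ((m ^ 2 : ℝ) : ℂ) := by
        rw [inner_self_eq_norm_sq_to_K, hTx]; push_cast; rfl
      have e5 : inner ℂ (T x) x = conj ip := by rw [hip, inner_conj_symm]
      have e6 : a * conj a = ((δ ^ 2 : ℝ) : ℂ) := by
        rw [Complex.mul_conj, Complex.normSq_eq_norm_sq, han]
      rw [e1, inner_sub_right, inner_add_right, inner_add_right, inner_smul_right,
        inner_smul_right, inner_smul_right, e3, e4, e5, e6]
      push_cast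
      ring
    have h5 : (inner ℂ (T x) (G x)).re = m ^ 2 * (1 - δ ^ 2) + (m ^ 2 - 1) * (δ * ‖ip‖) := by
      have e1 : (a * conj ip).re = δ * ‖ip‖ := by
        have : a * conj ip = conj (conj a * ip) := by rw [map_mul, Complex.conj_conj]
        rw [this, hai, Complex.conj_ofReal, Complex.ofReal_re]
      have e2 : (conj a * ((m ^ 2 : ℝ) : ℂ) * ip).re = m ^ 2 * (δ * ‖ip‖) := by
        have : conj a * ((m ^ 2 : ℝ) : ℂ) * ip = ((m ^ 2 : ℝ) : ℂ) * (conj a * ip) := by ring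
        rw [this, hai, ← Complex.ofReal_mul, Complex.ofReal_re]
      rw [h4, Complex.add_re, Complex.sub_re, Complex.ofReal_re, e1, e2]
      ring
    have h6 : (inner ℂ (T x) (G x)).re ≤ m * (K * (1 + δ ^ 2)) := by
      calc (inner ℂ (T x) (G x)).re ≤ ‖(inner ℂ (T x) (G x) : ℂ)‖ := Complex.re_le_norm _
        _ ≤ ‖T x‖ * ‖G x‖ := norm_inner_le_norm _ _
        _ ≤ m * (K * (1 + δ ^ 2)) := by
            rw [hTx]
            have := G.le_opNorm x
            rw [hx, mul_one] at this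
            have hm0 : 0 ≤ m := by linarith
            gcongr
            exact this.trans h3
    rw [h5] at h6
    have h7 : m * (K * (1 + δ ^ 2)) ≤ m * ((m + δ ^ 2) * (1 + δ ^ 2)) := by
      have hm0 : 0 ≤ m := by linarith
      gcongr
    have hδs : δ ^ 2 ≤ 1 := pow_le_one₀ hδ0.le hδ1
    have hδs0 : 0 ≤ δ ^ 2 := by positivity
    have h8 : (m ^ 2 - 1) * (δ * ‖ip‖) ≤ m * δ ^ 2 * (1 + δ ^ 2) + 2 * m ^ 2 * δ ^ 2 := by nlinarith
    have h9 : m * δ ^ 2 * (1 + δ ^ 2) ≤ 4 * δ ^ 2 := by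
      have : m * (1 + δ ^ 2) ≤ 4 := by nlinarith
      nlinarith
    have h10 : 2 * m ^ 2 * δ ^ 2 ≤ 8 * δ ^ 2 := by
      have : m ^ 2 ≤ 4 := by nlinarith
      nlinarith
    linarith
  have h1 : ‖ip‖ ≤ 12 * δ / (m ^ 2 - 1) := by
    rw [le_div_iff₀ hpos]
    have : δ * ((m ^ 2 - 1) * ‖ip‖) ≤ δ * (12 * δ) := by nlinarith
    have := le_of_mul_le_mul_left this hδ0
    linarith
  have h2 : m ^ 2 = ‖dev T x‖ ^ 2 + ‖ip‖ ^ 2 := by
    have e1 : T x = dev T x + ip • x := by unfold dev; rw [hip]; abel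
    have e2 : inner ℂ (dev T x) (ip • x) = (0 : ℂ) := by
      rw [inner_smul_right, inner_dev' T x hx, mul_zero]
    have h3 := norm_add_sq_eq_norm_sq_add_norm_sq_of_inner_eq_zero _ _ e2
    rw [← e1, hTx, norm_smul, hx, mul_one] at h3
    nlinarith
  have h3 : ‖dev T x‖ ^ 2 ≤ κ ^ 2 := pow_le_pow_left₀ (norm_nonneg _) hdev 2
  have h4 : ‖ip‖ ^ 2 ≤ (12 * δ / (m ^ 2 - 1)) ^ 2 := pow_le_pow_left₀ (norm_nonneg _) h1 2
  linarith

/-- If all `p` bounded by `1` on a nonempty set `W` satisfy `‖p(A)‖ ≤ 2` and `‖dev (p(A)) x‖ ≤ κ` for unit vectors,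
then they satisfy `‖p(A)‖ ≤ max 1 κ`. -/
theorem norm_le_max [FiniteDimensional ℂ H] [Nontrivial H] (A : H →L[ℂ] H) (W : Set ℂ) (κ : ℝ)
    (hW2 : ∀ p : ℂ[X], (∀ w ∈ W, ‖p.eval w‖ ≤ 1) → ‖aeval A p‖ ≤ 2)
    (hWκ : ∀ p : ℂ[X], (∀ w ∈ W, ‖p.eval w‖ ≤ 1) → ∀ x : H, ‖x‖ = 1 → ‖dev (aeval A p) x‖ ≤ κ)
    (p : ℂ[X]) (hp : ∀ w ∈ W, ‖p.eval w‖ ≤ 1) : ‖aeval A p‖ ≤ max 1 κ := by
  set 𝒮 : Set ℝ := {r | ∃ p : ℂ[X], (∀ w ∈ W, ‖p.eval w‖ ≤ 1) ∧ ‖aeval A p‖ = r} with hS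
  have hbdd : BddAbove 𝒮 := ⟨2, by rintro r ⟨p, hp, rfl⟩; exact hW2 p hp⟩
  have hne : 𝒮.Nonempty := ⟨_, p, hp, rfl⟩
  set K := sSup 𝒮 with hKd
  have hK : ∀ p : ℂ[X], (∀ w ∈ W, ‖p.eval w‖ ≤ 1) → ‖aeval A p‖ ≤ K :=
    fun p hp => le_csSup hbdd ⟨p, hp, rfl⟩
  have hK2 : K ≤ 2 := csSup_le hne (by rintro r ⟨p, hp, rfl⟩; exact hW2 p hp)
  refine (hK p hp).trans ?_
  by_contra hcon
  push Not at hcon
  set c := max 1 κ with hc
  have hc1 : 1 ≤ c := le_max_left _ _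
  have hcκ : κ ≤ c := le_max_right _ _
  have hκ0 : 0 ≤ κ := by
    obtain ⟨x, hx⟩ := exists_norm_eq H zero_le_one
    exact (norm_nonneg _).trans (hWκ p hp x hx)
  set d := (K + c) / 2 with hd
  have hdc : c < d := by rw [hd]; linarith
  have hdK : d < K := by rw [hd]; linarith
  have hd1 : 0 < d ^ 2 - 1 := by nlinarith
  have hdc2 : 0 < d ^ 2 - c ^ 2 := by nlinarith
  -- choose `δ`
  obtain ⟨δ, hδ0, hδ1, hδK, hδd⟩ : ∃ δ : ℝ, 0 < δ ∧ δ ≤ 1 ∧ δ ^ 2 < K - d ∧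
      (12 * δ / (d ^ 2 - 1)) ^ 2 < d ^ 2 - c ^ 2 := by
    have ht : Filter.Tendsto (fun δ : ℝ => δ ^ 2) (nhdsWithin 0 (Set.Ioi 0)) (nhds 0) := by
      have : Filter.Tendsto (fun δ : ℝ => δ ^ 2) (nhds 0) (nhds (0 ^ 2)) :=
        (continuous_pow 2).tendsto 0
      rw [zero_pow two_ne_zero] at this
      exact this.mono_left nhdsWithin_le_nhds
    have ht2 : Filter.Tendsto (fun δ : ℝ => (12 * δ / (d ^ 2 - 1)) ^ 2) (nhdsWithin 0 (Set.Ioi 0))
        (nhds 0) := by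
      have : Filter.Tendsto (fun δ : ℝ => (12 * δ / (d ^ 2 - 1)) ^ 2) (nhds 0)
          (nhds ((12 * 0 / (d ^ 2 - 1)) ^ 2)) := by
        apply Continuous.tendsto
        fun_prop
      rw [mul_zero, zero_div, zero_pow two_ne_zero] at this
      exact this.mono_left nhdsWithin_le_nhds
    have e1 := ht.eventually (gt_mem_nhds (sub_pos.mpr hdK))
    have e2 := ht2.eventually (gt_mem_nhds hdc2)
    have e3 : ∀ᶠ δ : ℝ in nhdsWithin 0 (Set.Ioi 0), δ ≤ 1 := by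
      apply Filter.Eventually.filter_mono nhdsWithin_le_nhds
      exact (gt_mem_nhds one_pos).mono fun x hx => hx.le
    have e4 : ∀ᶠ δ : ℝ in nhdsWithin 0 (Set.Ioi 0), 0 < δ := by
      filter_upwards [self_mem_nhdsWithin] with δ hδ using hδ
    obtain ⟨δ, h1, h2, h3, h4⟩ := (e1.and (e2.and (e3.and e4))).exists
    exact ⟨δ, h4, h3, h1, h2⟩
  obtain ⟨r, ⟨f, hf, rfl⟩, hr⟩ := exists_lt_of_lt_csSup hne (show K - δ ^ 2 < sSup 𝒮 by
    rw [← hKd]; nlinarith)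
  set m := ‖aeval A f‖ with hm
  have hmd : d < m := by linarith
  obtain ⟨x, hx, hTx⟩ := exists_max (aeval A f)
  have h1 := near_extremal A W K κ hK hK2 f hf m rfl (by linarith) x hx hTx (hWκ f hf x hx) δ hδ0 hδ1
    (by linarith)
  have h2 : (12 * δ / (m ^ 2 - 1)) ^ 2 ≤ (12 * δ / (d ^ 2 - 1)) ^ 2 := by
    apply pow_le_pow_left₀
    · apply div_nonneg (by positivity); nlinarith
    · apply div_le_div_of_nonneg_left (by positivity) hd1
      nlinarith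
  have h3 : κ ^ 2 ≤ c ^ 2 := pow_le_pow_left₀ hκ0 hcκ 2
  have h4 : d ^ 2 ≤ m ^ 2 := pow_le_pow_left₀ (by linarith) hmd.le 2
  linarith

/-- the main inequality -/
theorem main [FiniteDimensional ℂ H] [Nontrivial H] (A : H →L[ℂ] H) (q : ℝ) (hq0 : 0 < q) (hq1 : q ≤ 1)
    (hz : ∀ x : H, ‖x‖ = 1 → q = 1 ∨ ∃ z : H, ‖z‖ = 1 ∧ inner ℂ z x = (0 : ℂ)) (p : ℂ[X]) (M : ℝ)
    (hM : ∀ w ∈ Om A (q : ℂ), ‖p.eval w‖ ≤ M) :
    ‖aeval A p‖ ≤ max 1 (2 * q / (1 + Real.sqrt (1 - q ^ 2))) * M := by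
  set k : ℝ := (1 + Real.sqrt (1 - q ^ 2)) / q with hk
  have hs0 : 0 ≤ Real.sqrt (1 - q ^ 2) := Real.sqrt_nonneg _
  have hk0 : 0 < k := by positivity
  have hκ : 2 * q / (1 + Real.sqrt (1 - q ^ 2)) = 2 / k := by
    rw [hk]; field_simp
  rw [hκ]
  obtain ⟨x₁, hx₁⟩ := exists_norm_eq H zero_le_one
  have hM0 : 0 ≤ M := by
    have h1 := circle_mem A q hq0 hq1 x₁ hx₁ (hz x₁ hx₁) 1 (by simp)
    exact (norm_nonneg _).trans (hM _ h1)
  rcases hM0.eq_or_lt with h0 | hpos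
  · have h1 := (dev_bound A q hq0 hq1 hz p M hM k hk x₁ hx₁).2
    rw [← h0] at h1 ⊢
    linarith
  · have h1 := norm_le_max A (Om A (q : ℂ)) (2 / k) (fun f hf => by
        have := (dev_bound A q hq0 hq1 hz f 1 hf k hk x₁ hx₁).2
        linarith) (fun f hf x hx => by
        have := (dev_bound A q hq0 hq1 hz f 1 hf k hk x hx).1
        rw [le_div_iff₀ hk0]; linarith) (C (((M⁻¹ : ℝ)) : ℂ) * p) (fun w hw => by
        rw [eval_mul, eval_C, norm_mul, Complex.norm_real, Real.norm_eq_abs,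
          abs_of_pos (by positivity)]
        calc M⁻¹ * ‖p.eval w‖ ≤ M⁻¹ * M := by gcongr; exact hM w hw
          _ = 1 := inv_mul_cancel₀ hpos.ne')
    rw [map_mul, aeval_C, ← Algebra.smul_def, norm_smul, Complex.norm_real, Real.norm_eq_abs,
      abs_of_pos (by positivity), inv_mul_le_iff₀ hpos] at h1
    linarith

end Pool.Agent.R947.QNum
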